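import Mathlib

/-!
From points to ideals: Nullstellensatz for a quotient of a polynomial ring over an algebraically
closed field, and contraction along a retraction.
-/

namespace Pool.Agent.T9h22.HS

/-- If `ρ : R → S` is additive and `S`-linear (`ρ (ι s * r) = s * ρ r`) with `ρ 1 = 1`,
then `IR ∩ S = I`. -/
theorem mem_of_map_mem {S R : Type*} [CommRing S] [CommRing R] (ι : S →+* R) (ρ : R → S)
    (hadd : ∀ x y, ρ (x + y) = ρ x + ρ y) (hmul : ∀ s x, ρ (ι s * x) = s * ρ x) (hone : ρ 1 = 1)
    (I : Ideal S) {s : S} (hs : ι s ∈ I.map ι) : s ∈ I := by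
  have hz : ρ 0 = 0 := by
    have := hadd 0 0
    simpa using this
  have key : ∀ x ∈ I.map ι, ρ x ∈ I := by
    intro x hx
    rw [Ideal.map] at hx
    induction hx using Submodule.span_induction with
    | mem x hx =>
      obtain ⟨t, ht, rfl⟩ := hx
      have := hmul t 1
      rw [mul_one, hone, mul_one] at this
      rw [this]; exact ht
    | zero => rw [hz]; exact I.zero_mem
    | add x y _ _ hx hy => rw [hadd]; exact I.add_mem hx hy
    | smul a x hxm hx =>
      -- `a * x` : redo the induction with the multiplier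
      have h2 : ∀ a : R, ρ (a * x) ∈ I := by
        clear hx
        induction hxm using Submodule.span_induction with
        | mem x hx =>
          intro a
          obtain ⟨t, ht, rfl⟩ := hx
          rw [mul_comm, hmul]
          exact I.mul_mem_right _ ht
        | zero => intro a; rw [mul_zero, hz]; exact I.zero_mem
        | add x y _ _ hx hy => intro a; rw [mul_add, hadd]; exact I.add_mem (hx a) (hy a)
        | smul c x _ hx => intro a; rw [smul_eq_mul, ← mul_assoc]; exact hx (a * c)
      exact h2 a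
  have h1 := key _ hs
  have h2 := hmul s 1
  rw [mul_one, hone, mul_one] at h2
  rwa [h2] at h1

theorem mem_radical_of_map_mem {S R : Type*} [CommRing S] [CommRing R] (ι : S →+* R) (ρ : R → S)
    (hadd : ∀ x y, ρ (x + y) = ρ x + ρ y) (hmul : ∀ s x, ρ (ι s * x) = s * ρ x) (hone : ρ 1 = 1)
    (I : Ideal S) {s : S} (hs : ι s ∈ (I.map ι).radical) : s ∈ I.radical := by
  obtain ⟨n, hn⟩ := hs
  exact ⟨n, mem_of_map_mem ι ρ hadd hmul hone I (by rwa [map_pow])⟩

variable {K : Type*} [Field K] [IsAlgClosed K] {σ : Type*} [Finite σ]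

/-- Nullstellensatz: if `f` vanishes at all points of `V(J)` at which all `t ∈ T` vanish, then
`f` lies in the radical of `J + (T)`. -/
theorem mem_radical_of_points (J : Ideal (MvPolynomial σ K)) (T : Set (MvPolynomial σ K))
    (f : MvPolynomial σ K)
    (h : ∀ v : σ → K, (∀ g ∈ J, MvPolynomial.eval v g = 0) →
      (∀ t ∈ T, MvPolynomial.eval v t = 0) → MvPolynomial.eval v f = 0) :
    f ∈ (J ⊔ Ideal.span T).radical := by
  rw [← MvPolynomial.vanishingIdeal_zeroLocus_eq_radical (K := K)]
  rw [MvPolynomial.mem_vanishingIdeal_iff]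
  intro v hv
  rw [MvPolynomial.mem_zeroLocus_iff] at hv
  have e : ∀ p : MvPolynomial σ K, MvPolynomial.aeval v p = MvPolynomial.eval v p := fun p => by
    rw [← MvPolynomial.coe_aeval_eq_eval]; rfl
  rw [e]
  refine h v (fun g hg => ?_) (fun t ht => ?_)
  · rw [← e]; exact hv g (Ideal.mem_sup_left hg)
  · rw [← e]; exact hv t (Ideal.mem_sup_right (Ideal.subset_span ht))

/-- The same in the quotient ring. -/
theorem mk_mem_radical_of_points (J : Ideal (MvPolynomial σ K)) (T : Set (MvPolynomial σ K))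
    (f : MvPolynomial σ K)
    (h : ∀ v : σ → K, (∀ g ∈ J, MvPolynomial.eval v g = 0) →
      (∀ t ∈ T, MvPolynomial.eval v t = 0) → MvPolynomial.eval v f = 0) :
    Ideal.Quotient.mk J f ∈ (Ideal.span (Ideal.Quotient.mk J '' T)).radical := by
  obtain ⟨n, hn⟩ := mem_radical_of_points J T f h
  refine ⟨n, ?_⟩
  rw [← map_pow, ← Ideal.map_span]
  obtain ⟨j, hj, t, ht, e⟩ := Submodule.mem_sup.1 hn
  rw [← e, map_add, Ideal.Quotient.eq_zero_iff_mem.2 hj, zero_add]
  exact Ideal.mem_map_of_mem _ ht

/-- **From points to ideals.** `S → R = K[σ]/J` with an `S`-linear retraction; if every point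
of `V(J)` at which (lifts of) all elements of `T ⊆ S` vanish is a zero of (a lift of) `s ∈ S`, then
`s` lies in the radical of the ideal of `S` generated by `T`. -/
theorem mem_radical_of_retraction {S : Type*} [CommRing S] (J : Ideal (MvPolynomial σ K))
    (ι : S →+* MvPolynomial σ K ⧸ J) (ρ : MvPolynomial σ K ⧸ J → S)
    (hadd : ∀ x y, ρ (x + y) = ρ x + ρ y) (hmul : ∀ s x, ρ (ι s * x) = s * ρ x) (hone : ρ 1 = 1)
    (T : Set S) (T' : Set (MvPolynomial σ K))
    (hT : ∀ t ∈ T', ∃ s ∈ T, ι s = Ideal.Quotient.mk J t)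
    (s : S) (f : MvPolynomial σ K) (hf : ι s = Ideal.Quotient.mk J f)
    (h : ∀ v : σ → K, (∀ g ∈ J, MvPolynomial.eval v g = 0) →
      (∀ t ∈ T', MvPolynomial.eval v t = 0) → MvPolynomial.eval v f = 0) :
    s ∈ (Ideal.span T).radical := by
  apply mem_radical_of_map_mem ι ρ hadd hmul hone
  rw [hf]
  refine Ideal.radical_mono ?_ (mk_mem_radical_of_points J T' f h)
  rw [Ideal.map_span]
  refine Ideal.span_mono ?_
  rintro _ ⟨t, ht, rfl⟩
  obtain ⟨u, hu, e⟩ := hT t ht
  exact ⟨u, hu, e⟩

end Pool.Agent.T9h22.HS
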