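import Pool.Agent.T9h22.HS.Section
import Pool.Agent.T9h22.HS.Points
import Pool.Agent.T9h29.NA.Iface

/-!
The section ring property in the interface of `Pool.Agent.T9h29.NA`.
-/

namespace Pool.Agent.T9h22.HS

open HomogeneousIdeal Pool.Agent.T9h29.NA

variable {K S : Type*} [Field K] [CommRing S] [Algebra K S]

/-- If `I` contains all homogeneous elements of large degree then `S₊ ⊆ √I`. -/
theorem irrelevant_le_radical (𝒜 : ℕ → Submodule K S) [GradedAlgebra 𝒜] (I : Ideal S)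
    (h : ∃ j0, ∀ j, j0 ≤ j → 𝒜 j ≤ I.restrictScalars K) :
    (irrelevant 𝒜).toIdeal ≤ I.radical := by
  obtain ⟨j0, h⟩ := h
  rw [irrelevant_eq_span, Ideal.span_le]
  intro x hx
  rw [Set.mem_iUnion₂] at hx
  obtain ⟨i, hi, hx⟩ := hx
  refine ⟨j0, ?_⟩
  have h1 : x ^ j0 ∈ 𝒜 (j0 • i) := SetLike.pow_mem_graded j0 hx
  exact h (j0 • i) (by rw [smul_eq_mul]; exact Nat.le_mul_of_pos_right _ hi) h1

/-- **Section ring criterion**, in the interface of `NA.Iface`. -/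
theorem isSectionRing (𝒜 : ℕ → Submodule K S) [GradedAlgebra 𝒜] [IsDomain S]
    (h0 : ∀ s ∈ 𝒜 0, ∃ c : K, algebraMap K S c = s) {d q : ℕ} (hq : 0 < q) (hd : 2 ≤ d)
    (θ : Fin d → S) (hθ : ∀ i, θ i ∈ 𝒜 q) {I : Type} [Fintype I] (b : I → S)
    (hfree : IsFreeBasis K θ b) (n : ℕ)
    (h1 : ∃ j0, ∀ j, j0 ≤ j → 𝒜 j ≤ (Ideal.span (𝒜 n : Set S)).restrictScalars K)
    (h2 : ∃ j0, ∀ j, j0 ≤ j → 𝒜 j ≤ (Ideal.span (𝒜 (n + 1) : Set S)).restrictScalars K) :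
    IsSectionRing 𝒜 :=
  isSectionRing_of_free 𝒜 h0 θ (fun i => mem_irrelevant_of_mem 𝒜 hq (hθ i)) hd b hfree
    ⟨n, irrelevant_le_radical 𝒜 _ h1, irrelevant_le_radical 𝒜 _ h2⟩

/-- The Krull dimension. -/
theorem ringKrullDim_eq [IsDomain S] {d : ℕ} (θ : Fin d → S) {I : Type} [Fintype I] (b : I → S)
    (hfree : IsFreeBasis K θ b) : ringKrullDim S = d :=
  ringKrullDim_of_free θ b hfree

end Pool.Agent.T9h22.HS
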