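import Mathlib

/-!
Section rings in elementary form, the criterion by a regular pair, Krull dimension of an algebra
which is free over a polynomial subring, and the passage from points to ideals.
-/

namespace Pool.Agent.T9h22.HS

open HomogeneousIdeal

section Defs

variable {K S : Type*} [Field K] [CommRing S] [Algebra K S]

/-- Elementary form of the statement that `S = ⊕ H⁰(X, Lⁿ)` for a projective variety `X` over `K`
and an ample invertible sheaf `L`: `S` is a finitely generated graded domain with `S₀ = K`; at every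
homogeneous prime which does not contain `S₊` some two consecutive pieces `Sₙ, Sₙ₊₁` do not vanish
(so `O(1)` is invertible on `X = Proj S`); and every fraction `a / b` of degree `n`
which is regular on `X` (for each `x ∈ S₊` some `xᵐ a / b` lies in `S`) lies in `S`
(so `Sₙ = H⁰(X, O(n))`). -/
structure IsSectionRing (𝒜 : ℕ → Submodule K S) [GradedAlgebra 𝒜] : Prop where
  isDomain : IsDomain S
  finiteType : Algebra.FiniteType K S
  zero : ∀ s ∈ 𝒜 0, ∃ c : K, algebraMap K S c = s
  invertible : ∀ p : Ideal S, p.IsPrime → p.IsHomogeneous 𝒜 →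
    ¬ (irrelevant 𝒜).toIdeal ≤ p → ∃ n, ¬ (𝒜 n : Set S) ⊆ p ∧ ¬ (𝒜 (n + 1) : Set S) ⊆ p
  saturated : ∀ n j, ∀ a ∈ 𝒜 (j + n), ∀ b ∈ 𝒜 j, b ≠ 0 →
    (∀ x ∈ (irrelevant 𝒜).toIdeal, ∃ m, b ∣ x ^ m * a) → b ∣ a

end Defs

section Regular

variable {S : Type*} [CommRing S]

theorem dvd_of_dvd_pow_mul {x y : S} (h : ∀ c, x ∣ y * c → x ∣ c) (m : ℕ) :
    ∀ c, x ∣ y ^ m * c → x ∣ c := by
  induction m with
  | zero => intro c hc; simpa using hc
  | succ m ih =>
    intro c hc
    apply ih
    apply h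
    rwa [pow_succ', mul_assoc] at hc

theorem pow_dvd_of_pow_dvd_pow_mul [IsDomain S] {x y : S} (hx : x ≠ 0)
    (h : ∀ c, x ∣ y * c → x ∣ c) (m : ℕ) :
    ∀ l c, x ^ l ∣ y ^ m * c → x ^ l ∣ c := by
  intro l
  induction l with
  | zero => intro c _; simp
  | succ l ih =>
    intro c hc
    have h1 : x ∣ y ^ m * c := dvd_trans (dvd_pow_self x (Nat.succ_ne_zero l)) hc
    obtain ⟨e, rfl⟩ := dvd_of_dvd_pow_mul h m c h1
    have h2 : x * x ^ l ∣ x * (y ^ m * e) := by
      have : x * (y ^ m * e) = y ^ m * (x * e) := by ring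
      rw [this, ← pow_succ']; exact hc
    have h3 : x ^ l ∣ y ^ m * e := (mul_dvd_mul_iff_left hx).1 h2
    rw [pow_succ']
    exact mul_dvd_mul_left x (ih e h3)

/-- A regular pair `x, y` makes a domain saturated. -/
theorem dvd_of_pair [IsDomain S] {x y : S} (hx : x ≠ 0) (hy : ∀ c, x ∣ y * c → x ∣ c)
    {a b : S} (hb : b ≠ 0) {m l : ℕ} (h1 : b ∣ x ^ m * a) (h2 : b ∣ y ^ l * a) : b ∣ a := by
  obtain ⟨c, hc⟩ := h1
  obtain ⟨c', hc'⟩ := h2
  have h3 : x ^ m * c' = y ^ l * c := by
    apply mul_left_cancel₀ hb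
    calc b * (x ^ m * c') = x ^ m * (b * c') := by ring
      _ = x ^ m * (y ^ l * a) := by rw [hc']
      _ = y ^ l * (x ^ m * a) := by ring
      _ = y ^ l * (b * c) := by rw [hc]
      _ = b * (y ^ l * c) := by ring
  have h4 : x ^ m ∣ c := by
    apply pow_dvd_of_pow_dvd_pow_mul hx hy l m
    exact ⟨c', h3.symm⟩
  obtain ⟨e, rfl⟩ := h4
  refine ⟨e, ?_⟩
  apply mul_left_cancel₀ (pow_ne_zero m hx)
  rw [hc]; ring

end Regular

section Free

variable {P S : Type*} [CommRing P] [CommRing S] [Algebra P S]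

theorem algebraMap_dvd_iff {ι : Type*} [Finite ι] (b : Module.Basis ι P S) (p : P) (s : S) :
    algebraMap P S p ∣ s ↔ ∀ i, p ∣ b.repr s i := by
  classical
  have := Fintype.ofFinite ι
  constructor
  · rintro ⟨t, rfl⟩ i
    rw [← Algebra.smul_def]
    simp
  · intro h
    choose q hq using h
    refine ⟨∑ i, q i • b i, ?_⟩
    rw [← Algebra.smul_def, Finset.smul_sum]
    conv_lhs => rw [← b.sum_repr s]
    refine Finset.sum_congr rfl fun i _ => ?_
    rw [hq i, mul_smul]

variable {K : Type*} [Field K]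

theorem X_dvd_of_dvd_X_mul {σ : Type*} {i j : σ} (hij : i ≠ j) (c : MvPolynomial σ K)
    (h : (MvPolynomial.X i : MvPolynomial σ K) ∣ MvPolynomial.X j * c) :
    (MvPolynomial.X i : MvPolynomial σ K) ∣ c := by
  rcases (MvPolynomial.X_prime (i := i)).dvd_or_dvd h with h | h
  · exact absurd (MvPolynomial.X_dvd_X.1 h) hij
  · exact h

end Free

section FreeFamily

variable {K S : Type*} [Field K] [CommRing S] [Algebra K S] {d : ℕ} {I : Type*} [Fintype I]

/-- The basis of `S` over the polynomial ring. -/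
theorem exists_basis (θ : Fin d → S) (b : I → S)
    (hfree : ∀ x : S, ∃! c : I → MvPolynomial (Fin d) K,
      x = ∑ i, MvPolynomial.aeval θ (c i) * b i) :
    let _ := (MvPolynomial.aeval (R := K) θ).toRingHom.toAlgebra
    Nonempty (Module.Basis I (MvPolynomial (Fin d) K) S) := by
  let _ := (MvPolynomial.aeval (R := K) θ).toRingHom.toAlgebra
  have hsm : ∀ (p : MvPolynomial (Fin d) K) (s : S), p • s = MvPolynomial.aeval θ p * s :=
    fun p s => rfl
  have hbij : Function.Bijective
      (Fintype.linearCombination (MvPolynomial (Fin d) K) (M := S) b) := by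
    constructor
    · intro c c' h
      rw [Fintype.linearCombination_apply, Fintype.linearCombination_apply] at h
      exact (hfree (∑ i, c i • b i)).unique (by simp only [hsm]) (by rw [h]; simp only [hsm])
    · intro x
      obtain ⟨c, hc, -⟩ := hfree x
      refine ⟨c, ?_⟩
      rw [Fintype.linearCombination_apply, hc]
      rfl
  exact ⟨Module.Basis.ofEquivFun (LinearEquiv.ofBijective _ hbij).symm⟩

theorem aeval_dvd_iff (θ : Fin d → S) (b : I → S)
    (hfree : ∀ x : S, ∃! c : I → MvPolynomial (Fin d) K,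
      x = ∑ i, MvPolynomial.aeval θ (c i) * b i) (p : MvPolynomial (Fin d) K) :
    ∃ r : S → I → MvPolynomial (Fin d) K,
      (∀ s, MvPolynomial.aeval θ p ∣ s ↔ ∀ i, p ∣ r s i) ∧
      (∀ q s i, r (MvPolynomial.aeval θ q * s) i = q * r s i) := by
  let _ := (MvPolynomial.aeval (R := K) θ).toRingHom.toAlgebra
  obtain ⟨B⟩ := exists_basis θ b hfree
  refine ⟨fun s i => B.repr s i, fun s => algebraMap_dvd_iff B p s, fun q s i => ?_⟩
  have : MvPolynomial.aeval θ q * s = q • s := rfl
  rw [this]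
  simp

/-- `θ_i, θ_j` is a regular pair. -/
theorem pair_of_free (θ : Fin d → S) (b : I → S)
    (hfree : ∀ x : S, ∃! c : I → MvPolynomial (Fin d) K,
      x = ∑ i, MvPolynomial.aeval θ (c i) * b i) {i j : Fin d} (hij : i ≠ j) (c : S)
    (h : θ i ∣ θ j * c) : θ i ∣ c := by
  obtain ⟨r, h1, h2⟩ := aeval_dvd_iff θ b hfree (MvPolynomial.X i)
  have e : ∀ k, θ k = MvPolynomial.aeval θ (MvPolynomial.X k : MvPolynomial (Fin d) K) := by
    intro k; simp
  rw [e i] at h ⊢
  rw [e j] at h
  rw [h1] at h ⊢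
  intro l
  have := h l
  rw [h2] at this
  exact X_dvd_of_dvd_X_mul hij _ this

theorem aeval_injective [Nontrivial S] (θ : Fin d → S) (b : I → S)
    (hfree : ∀ x : S, ∃! c : I → MvPolynomial (Fin d) K,
      x = ∑ i, MvPolynomial.aeval θ (c i) * b i) :
    Function.Injective (MvPolynomial.aeval (R := K) θ) := by
  let _ := (MvPolynomial.aeval (R := K) θ).toRingHom.toAlgebra
  obtain ⟨B⟩ := exists_basis θ b hfree
  have : Nonempty I := by
    by_contra hI
    rw [not_nonempty_iff] at hI
    obtain ⟨c, hc, -⟩ := hfree 1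
    simp at hc
  obtain ⟨i⟩ := this
  intro p q hpq
  have h : p • b i = q • b i := by
    change MvPolynomial.aeval θ p * b i = MvPolynomial.aeval θ q * b i
    rw [hpq]
  classical
  have h1 := (hfree (MvPolynomial.aeval θ p * b i)).unique
    (y₁ := fun k => if k = i then p else 0) (y₂ := fun k => if k = i then q else 0) ?_ ?_
  · simpa using congrFun h1 i
  · rw [Finset.sum_eq_single i (fun j _ hj => by simp [hj]) (fun h => absurd (Finset.mem_univ i) h)]
    simp
  · rw [hpq, Finset.sum_eq_single i (fun j _ hj => by simp [hj])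
      (fun h => absurd (Finset.mem_univ i) h)]
    simp

theorem finiteType_of_free (θ : Fin d → S) (b : I → S)
    (hfree : ∀ x : S, ∃! c : I → MvPolynomial (Fin d) K,
      x = ∑ i, MvPolynomial.aeval θ (c i) * b i) : Algebra.FiniteType K S := by
  let _ := (MvPolynomial.aeval (R := K) θ).toRingHom.toAlgebra
  have : IsScalarTower K (MvPolynomial (Fin d) K) S := by
    refine IsScalarTower.of_algebraMap_eq fun x => ?_
    change _ = MvPolynomial.aeval θ (MvPolynomial.C x)
    simp
  obtain ⟨B⟩ := exists_basis θ b hfree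
  have : Module.Finite (MvPolynomial (Fin d) K) S := Module.Finite.of_basis B
  have : Algebra.FiniteType (MvPolynomial (Fin d) K) S := inferInstance
  exact Algebra.FiniteType.trans (R := K) (S := MvPolynomial (Fin d) K) (A := S) inferInstance this

theorem ringKrullDim_of_free [IsDomain S] (θ : Fin d → S) (b : I → S)
    (hfree : ∀ x : S, ∃! c : I → MvPolynomial (Fin d) K,
      x = ∑ i, MvPolynomial.aeval θ (c i) * b i) : ringKrullDim S = d := by
  let _ := (MvPolynomial.aeval (R := K) θ).toRingHom.toAlgebra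
  obtain ⟨B⟩ := exists_basis θ b hfree
  have hfin : Module.Finite (MvPolynomial (Fin d) K) S := Module.Finite.of_basis B
  have hint : Algebra.IsIntegral (MvPolynomial (Fin d) K) S := inferInstance
  have hinj : Function.Injective (algebraMap (MvPolynomial (Fin d) K) S) :=
    aeval_injective θ b hfree
  have hP : ringKrullDim (MvPolynomial (Fin d) K) = d := by
    rw [MvPolynomial.ringKrullDim_of_isNoetherianRing, ringKrullDim_eq_zero_of_field]
    simp
  apply le_antisymm
  · rw [← hP]
    refine Order.krullDim_le_of_strictMono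
      (fun p : PrimeSpectrum S => PrimeSpectrum.comap (algebraMap _ S) p) ?_
    intro p q hpq
    have := p.2
    exact Ideal.IsIntegral.comap_lt_comap (R := MvPolynomial (Fin d) K) (A := S) hpq
  · rw [← hP]
    unfold ringKrullDim Order.krullDim
    refine iSup_le fun l => ?_
    obtain ⟨Q, -, hQ, hQl⟩ := Ideal.exists_ideal_over_prime_of_isIntegral_of_isPrime
      (S := S) (RelSeries.head l).asIdeal (⊥ : Ideal S)
      (by
        rw [← RingHom.ker_eq_comap_bot, (RingHom.injective_iff_ker_eq_bot _).1 hinj]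
        exact bot_le)
    have : Q.LiesOver (RelSeries.head l).asIdeal := ⟨hQl.symm⟩
    obtain ⟨L, hL, -⟩ := Ideal.exists_ltSeries_of_hasGoingUp l Q
    rw [← hL]
    exact le_iSup (fun L : LTSeries (PrimeSpectrum S) => (L.length : WithBot ℕ∞)) L

/-- **Section ring criterion.** -/
theorem isSectionRing_of_free (𝒜 : ℕ → Submodule K S) [GradedAlgebra 𝒜] [IsDomain S]
    (h0 : ∀ s ∈ 𝒜 0, ∃ c : K, algebraMap K S c = s)
    (θ : Fin d → S) (hθ : ∀ i, θ i ∈ (irrelevant 𝒜).toIdeal) (hd : 2 ≤ d) (b : I → S)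
    (hfree : ∀ x : S, ∃! c : I → MvPolynomial (Fin d) K,
      x = ∑ i, MvPolynomial.aeval θ (c i) * b i)
    (hbpf : ∃ n, (irrelevant 𝒜).toIdeal ≤ (Ideal.span (𝒜 n : Set S)).radical ∧
      (irrelevant 𝒜).toIdeal ≤ (Ideal.span (𝒜 (n + 1) : Set S)).radical) :
    IsSectionRing 𝒜 := by
  refine ⟨inferInstance, finiteType_of_free θ b hfree, h0, ?_, ?_⟩
  · intro p hp _ hirr
    obtain ⟨n, h1, h2⟩ := hbpf
    refine ⟨n, fun h => hirr (h1.trans ?_), fun h => hirr (h2.trans ?_)⟩ <;>
      exact hp.isRadical.radical_le_iff.2 (Ideal.span_le.2 h)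
  · intro n j a _ c _ hc h
    have i0 : Fin d := ⟨0, by omega⟩
    have h01 : (⟨0, by omega⟩ : Fin d) ≠ ⟨1, by omega⟩ := by simp
    obtain ⟨m, hm⟩ := h _ (hθ ⟨0, by omega⟩)
    obtain ⟨l, hl⟩ := h _ (hθ ⟨1, by omega⟩)
    refine dvd_of_pair (x := θ ⟨0, by omega⟩) (y := θ ⟨1, by omega⟩) ?_
      (pair_of_free θ b hfree h01) hc hm hl
    intro h0
    have hinj := aeval_injective (K := K) θ b hfree
    have : (MvPolynomial.X ⟨0, by omega⟩ : MvPolynomial (Fin d) K) = 0 := by
      apply hinj
      simpa using h0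
    exact MvPolynomial.X_ne_zero _ this

end FreeFamily

end Pool.Agent.T9h22.HS
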